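import Pool.Agent.Helper39.FX.Defs
import Pool.Agent.Helper88.FT.Final

/-!
# The birational section conjecture over all finitely generated fields of positive transcendence
degree, from the statements `S_CRV` and `S_ALLC` (not a result)
-/

set_option autoImplicit false
set_option linter.unusedSectionVars false

open Polynomial IsDedekindDomain NumberField

namespace Pool.Agent.Helper88.FX.Fin

open Pool.Agent.TH954 Pool.Agent.Y791.BS Pool.Agent.Y791.BF Pool.Agent.Y791.BC
  Pool.Agent.Y791.BC.Leg Pool.Agent.Helper39.FX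

section lvl

variable {k : Type} [Field k] [CharZero k] {M : Type} [Field M] [CharZero M] [IsAlgClosed M]
    [Algebra k M] (A : SAct k M) (pl : ∀ i : PlF k, Plc k M (AlgebraicClosure i.Lv))
    (hpl : ∀ i, GeoPlc A (pl i))
    (hdim : ∀ x : M, (∀ w : AlgebraicClosure k, x ≠ A.j w) →
      ∀ t : M, IsAlgebraic (Algebra.adjoin k {x}) t)

include hpl hdim in
/-- the stable valuation ring -/
theorem all_good (hALL : S_ALLC) (hObs : S_ObsFG)
    (k1 : Type) [Field k1] [CharZero k1] (hk1 : Algebra.EssFiniteType ℚ k1)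
    (m : k →+* k1) (κ : k1 →+* AlgebraicClosure k)
    (hκ : ∀ c, κ (m c) = algebraMap k (AlgebraicClosure k) c) (α : AlgebraicClosure k)
    (hα : ∀ τ : AlgebraicClosure k ≃ₐ[k] AlgebraicClosure k, τ α = α → ∀ c, τ (κ c) = κ c)
    (K : Type) [Field K] [CharZero K] (hK : Algebra.EssFiniteType ℚ K) (C : Crv K k1)
    {x : M} (hx : ∀ τ, A.s τ x = x) (hxc : ∀ w : AlgebraicClosure k, x ≠ A.j w) :
    ∃ W : ValuationSubring M, GoodW A W := by
  let inst : Algebra k1 M := ((A.j : AlgebraicClosure k →+* M).comp κ).toAlgebra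
  have hM : ∀ c : k1, algebraMap k1 M c = A.j (κ c) := fun c => rfl
  obtain ⟨A1, g, hg, hj, h1, h2⟩ := exists_base A m κ hκ hM
  choose pl1 hpl1 hval1 using exists_places2 A pl hpl m κ hκ hM A1 g hj h1
  have hxf : x ∈ A1.fix := by
    intro τ1
    obtain ⟨τ0, -, e⟩ := h1 τ1
    rw [e]
    exact hx τ0
  have hxt : Transcendental k1 x := by
    intro h
    obtain ⟨w, hw⟩ := alg_range A1.j h
    apply hxc (g w)
    rw [← hj, hw]
  obtain ⟨t, ht0, htv⟩ := hALL K k1 hK hk1 C M A1 pl1 hpl1 x hxf hxt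
  have hdim1 : ∀ z : M, Transcendental k1 z → IsAlgebraic (Algebra.adjoin k1 {z}) t := by
    intro z hz
    refine isAlgebraic_adjoin_of m (fun c => ?_) (hdim z (fun w hw => hz ?_) t)
    · rw [hM, hκ, A.j.commutes]
    · rw [hw, ← g.apply_symm_apply w, ← hj]
      exact (Algebra.IsAlgebraic.isAlgebraic (R := k1) (g.symm w)).algHom A1.j
  obtain ⟨W, hW⟩ := goodW_of_zero A1 (hObs k1 hk1) pl1 hpl1 ht0 htv hdim1
  exact ⟨W, goodW_base A κ hα A1 g hj h2 hW⟩

end lvl

/-- all sections -/
theorem all_main (hALL : S_ALLC) (hEmb : S_EmbFG) (hObs : S_ObsFG) (hDesc : S_Desc)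
    {k : Type} [Field k] [CharZero k] (hk : Algebra.EssFiniteType ℚ k)
    {F Ω B : Type} [Field F] [Field Ω] [Field B] [Algebra k F] [Algebra F Ω]
    [Algebra k Ω] [Algebra k B] [IsScalarTower k F Ω]
    [IsAlgClosure F Ω] [IsAlgClosure k B]
    (hF : ∃ t : F, Transcendental k t ∧
      Algebra.IsAlgebraic (IntermediateField.adjoin k {t}) F)
    (k' : IntermediateField k Ω) [FiniteDimensional k k']
    (k1 : Type) [Field k1] [CharZero k1] (hk1 : Algebra.EssFiniteType ℚ k1)
    (K : Type) [Field K] [CharZero K] (hK : Algebra.EssFiniteType ℚ K) (C : Crv K k1)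
    (ψ : k1 →+* Ω) (hψ : ψ.fieldRange = k'.toSubfield)
    (s : GalSection k F Ω B) :
    ∃! O : ValuationSubring F, s.ArisesFrom O := by
  have hΩ1 : IsAlgClosed Ω := IsAlgClosure.isAlgClosed F
  have hΩ2 : Algebra.IsAlgebraic F Ω := IsAlgClosure.isAlgebraic
  have hcF : CharZero F := charZero_of_injective_algebraMap (algebraMap k F).injective
  have hcΩ : CharZero Ω := charZero_of_injective_algebraMap (algebraMap F Ω).injective
  set A := toSAct s with hA
  obtain ⟨x, hxt, -⟩ := id hF
  have hloc : ∀ i : PlF k, s.GeometricOver i.Lv (AlgebraicClosure i.Lv) := fun i =>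
    Pool.Agent.N890.KO.koenigsmann i.L i.v k F Ω B s
  choose pl hpl using fun i : PlF k => toSAct_geo s (hloc i)
  obtain ⟨κ, μ, α, hκ, hα, hκψ⟩ := exists_lvl2 A.j k' ψ hψ
  have hx : ∀ τ, A.s τ (algebraMap F Ω x) = algebraMap F Ω x :=
    fun τ => (s.s ((eqv k B).autCongr τ)).commutes x
  have hxtΩ : Transcendental k (algebraMap F Ω x) := by
    intro h
    apply hxt
    exact (isAlgebraic_algHom_iff (IsScalarTower.toAlgHom k F Ω) (RingHom.injective _)).1 h
  have hxc : ∀ w : AlgebraicClosure k, algebraMap F Ω x ≠ A.j w := by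
    intro w hw
    apply hxtΩ
    rw [hw]
    exact (Algebra.IsAlgebraic.isAlgebraic (R := k) w).algHom A.j
  have hdim : ∀ x : Ω, (∀ w : AlgebraicClosure k, x ≠ A.j w) →
      ∀ t : Ω, IsAlgebraic (Algebra.adjoin k {x}) t := by
    intro x hx t
    refine (alg_adjoin_of_dim hF x (fun h => ?_)).isAlgebraic _
    obtain ⟨w, hw⟩ := alg_range A.j h
    exact hx w hw.symm
  obtain ⟨W, hW⟩ := all_good A pl hpl hdim hALL hObs k1 hk1 μ κ hκ α hα K hK C hx hxc
  exact geometric_of_good hEmb hDesc hk s W hW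

end Pool.Agent.Helper88.FX.Fin

namespace Pool.Agent.Helper88.FX.Final

open Pool.Agent.TH954 Pool.Agent.Y791.BF Pool.Agent.Y791.BC Pool.Agent.Helper39.FX
  Pool.Agent.Helper88.FT.Final

/-- the theorem for fields with a finite extension which is the function field of a curve,
Galois over `K(T)` -/
theorem final_of_crv (h : S_ALLC) (k : Type) [Field k] [CharZero k]
    [Algebra.EssFiniteType ℚ k] (k1 : Type) [Field k1] [Algebra k k1] [FiniteDimensional k k1]
    (K : Type) [Field K] [CharZero K] (hK : Algebra.EssFiniteType ℚ K) (C : Crv K k1) :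
    BirationalSectionConjecture k := by
  intro F Ω _ _ _ _ _ _ _ _ hF s
  have hΩ1 : IsAlgClosed Ω := IsAlgClosure.isAlgClosed F
  have hE : S_EmbFG := EmbFG.main FrobRes.main
  have halg : Algebra.IsAlgebraic k k1 := Algebra.IsAlgebraic.of_finite k k1
  have hch : CharZero k1 := charZero_of_injective_algebraMap (algebraMap k k1).injective
  have hk1 : Algebra.EssFiniteType ℚ k1 := Algebra.EssFiniteType.comp ℚ k k1
  let ι : k1 →ₐ[k] Ω := IsAlgClosed.lift
  have hfin : FiniteDimensional k ι.fieldRange :=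
    (AlgEquiv.ofInjectiveField ι).toLinearEquiv.finiteDimensional
  exact Fin.all_main h hE (ObsFG.main FrobRes.main hE) (Desc.main hE) inferInstance hF
    ι.fieldRange k1 hk1 K hK C (ι : k1 →+* Ω) rfl (toGal s)

/-- FINAL: the birational section conjecture over all finitely generated fields of positive
transcendence degree -/
theorem final (hCRV : S_CRV) (hALL : S_ALLC) (k : Type) [Field k] [CharZero k]
    [Algebra.EssFiniteType ℚ k] (hk : ∃ x : k, Transcendental ℚ x) :
    BirationalSectionConjecture k := by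
  obtain ⟨k1, _, _, _, K, _, _, hK, ⟨C⟩⟩ := hCRV k inferInstance hk
  exact final_of_crv hALL k k1 K hK C

end Pool.Agent.Helper88.FX.Final
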