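import Pool.Agent.Helper88.FX.E2b

/-!
# Package E2 (not a result)
-/

set_option autoImplicit false
set_option linter.unusedSectionVars false

open Polynomial IsDedekindDomain NumberField

namespace Pool.Agent.Helper88.FX.E2

open Pool.Agent.TH954 Pool.Agent.Y791.BF Pool.Agent.Helper39.FT Pool.Agent.Helper39.FX

lemma alg_ident {L : Type} [Field L] {X X' r r' w a b a' b' h h' d d' : L} {N : ℕ} (hN : 0 < N)
    (hX : X * r' = X' * r * w ^ N) (e : r * b * a ^ (N - 1) = d * h ^ N)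
    (e' : r' * b' * a' ^ (N - 1) = d' * h' ^ N) :
    X * (d' * a' * b) * (h' * a) ^ N = X' * (d * a * b') * (w * a' * h) ^ N := by
  have hp : ∀ x : L, x ^ N = x ^ (N - 1) * x := by
    intro x
    rw [← pow_succ]
    congr 1
    omega
  rw [mul_pow, mul_pow, mul_pow]
  rw [hp a, hp a']
  generalize a ^ (N - 1) = p at *
  generalize a' ^ (N - 1) = p' at *
  generalize h ^ N = H at *
  generalize h' ^ N = H' at *
  generalize w ^ N = W at *
  linear_combination (-X * a' * b * p * a) * e' + (X' * a * b' * W * p' * a') * e +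
    (b' * p' * a' * b * p * a) * hX

section crv

variable {K k : Type} [Field K] [CharZero K] [Field k] [CharZero k] (C : Crv K k)
  {F0 : Type} [Field F0] [Algebra k F0] (q : ∀ i : PlF k, Plc k F0 i.Lv) (y : F0)

/-- one norm -/
lemma key (hNMR : S_NMR) {m : ℕ} {A : ℕ → ℕ → K[X][X]} {G1 G2 : ℕ → K[X]}
    (hG : ∀ c < m, G1 c ≠ 0 ∧ G2 c ≠ 0) {N : ℕ} (hN : 0 < N) {c c' : ℕ} (hc : c < m) (hc' : c' < m)
    (hA : ClsC C (C.f.natDegree.factorial * N) (A c N) (y - (c : F0)))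
    (hA' : ClsC C (C.f.natDegree.factorial * N) (A c' N) (y - (c' : F0)))
    {d d' : K} {h h' : K[X]} (hh : h ≠ 0) (hh' : h' ≠ 0)
    (e : resultant C.f (A c N) * G2 c * G1 c ^ (N - 1) = Polynomial.C d * h ^ N)
    (e' : resultant C.f (A c' N) * G2 c' * G1 c' ^ (N - 1) = Polynomial.C d' * h' ^ N)
    (i : PlF k) (φ : k →+* i.Lv)
    (h1 : (nrm C q y i φ).eval (c : i.Lv) ≠ 0) (h2 : (nrm C q y i φ).eval (c' : i.Lv) ≠ 0) :
    ∃ P Q : i.Lv, P ≠ 0 ∧ Q ≠ 0 ∧ (nrm C q y i φ).eval (c : i.Lv) *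
      (φ (C.c d') * eval₂ (φ.comp C.c) (φ C.T)
        (G1 c' * ∏ c'' ∈ (Finset.range m).erase c', G2 c'')) * P ^ N =
      (nrm C q y i φ).eval (c' : i.Lv) *
      (φ (C.c d) * eval₂ (φ.comp C.c) (φ C.T)
        (G1 c * ∏ c'' ∈ (Finset.range m).erase c, G2 c'')) * Q ^ N := by
  classical
  set ψ : K[X] →+* i.Lv := eval₂RingHom (φ.comp C.c) (φ C.T) with hψ
  have hψe : ∀ p : K[X], eval₂ (φ.comp C.c) (φ C.T) p = ψ p := fun p => rfl
  have hψ0 : ∀ p : K[X], p ≠ 0 → ψ p ≠ 0 := by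
    intro p hp
    have h3 : ψ p = φ (eval₂ C.c C.T p) := by
      rw [hom_eval₂]
      rfl
    rw [h3]
    exact (_root_.map_ne_zero φ).2 (crv_ne C hp)
  obtain ⟨γ, hγ0, hγ⟩ := nrm_class C q y hNMR i φ
    (Nat.mul_pos (Nat.factorial_pos _) hN) hA hA' h1 h2
  rw [hψe, hψe] at hγ
  rw [hψe, hψe]
  rw [pow_mul] at hγ
  have e1 := congrArg ψ e
  have e1' := congrArg ψ e'
  rw [map_mul, map_mul, map_pow, map_mul, map_pow] at e1 e1'
  have hC : ∀ x : K, ψ (Polynomial.C x) = φ (C.c x) := by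
    intro x
    rw [hψ, coe_eval₂RingHom, eval₂_C]
    rfl
  rw [hC] at e1 e1'
  have h4 := alg_ident hN hγ e1 e1'
  -- the product of the denominators
  have hB : ∀ c0 < m, ψ (G1 c0 * ∏ c'' ∈ (Finset.range m).erase c0, G2 c'') * ψ (G2 c0) =
      ψ (G1 c0) * ψ (∏ c'' ∈ Finset.range m, G2 c'') := by
    intro c0 hc0
    rw [← map_mul, ← map_mul, mul_assoc, mul_comm (∏ c'' ∈ (Finset.range m).erase c0, G2 c''),
      Finset.mul_prod_erase _ _ (Finset.mem_range.2 hc0)]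
  have hb : ψ (G2 c) ≠ 0 := hψ0 _ (hG c hc).2
  have hb' : ψ (G2 c') ≠ 0 := hψ0 _ (hG c' hc').2
  refine ⟨ψ h' * ψ (G1 c), γ ^ C.f.natDegree.factorial * ψ (G1 c') * ψ h,
    mul_ne_zero (hψ0 _ hh') (hψ0 _ (hG c hc).1),
    mul_ne_zero (mul_ne_zero (pow_ne_zero _ hγ0) (hψ0 _ (hG c' hc').1)) (hψ0 _ hh), ?_⟩
  apply mul_right_cancel₀ (mul_ne_zero hb hb')
  have hBc := hB c hc
  have hBc' := hB c' hc'
  generalize ψ (G1 c * ∏ c'' ∈ (Finset.range m).erase c, G2 c'') = g at *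
  generalize ψ (G1 c' * ∏ c'' ∈ (Finset.range m).erase c', G2 c'') = g' at *
  generalize ψ (∏ c'' ∈ Finset.range m, G2 c'') = B at *
  generalize (ψ h' * ψ (G1 c)) ^ N = PN at *
  generalize (γ ^ C.f.natDegree.factorial * ψ (G1 c') * ψ h) ^ N = QN at *
  linear_combination (eval (c : i.Lv) (nrm C q y i φ) * φ (C.c d') * PN * ψ (G2 c)) * hBc' -
    (eval (c' : i.Lv) (nrm C q y i φ) * φ (C.c d) * QN * ψ (G2 c')) * hBc + B * h4

end crv

theorem main (hFIN : S_FIN) (hINF : S_INF) (hNMR : S_NMR) : S_E2 := by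
  intro K k _ _ _ _ hK C F0 _ _ _ q y hy A G1 G2 hcl
  classical
  obtain ⟨hG, hcls, hind⟩ := hcl
  set n := C.f.natDegree with hn
  set m := 3 * n + 2 with hm
  set g : ℕ → K[X] := fun c => G1 c * ∏ c' ∈ (Finset.range m).erase c, G2 c' with hg
  obtain ⟨Ψ, hΨ0, hΨ⟩ := hFIN K n C.pos m g le_rfl hind
  have hex : ∀ c N : ℕ, ∃ (d : K) (h : K[X]), c < m → 0 < N → d ≠ 0 ∧ h ≠ 0 ∧
      resultant C.f (A c N) * G2 c * G1 c ^ (N - 1) = Polynomial.C d * h ^ N := by
    intro c N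
    by_cases hc : c < m
    · by_cases hN : 0 < N
      · obtain ⟨-, d, h, h1⟩ := hcls c hc N hN
        exact ⟨d, h, fun _ _ => h1⟩
      · exact ⟨0, 0, fun _ h => absurd h hN⟩
    · exact ⟨0, 0, fun h => absurd h hc⟩
  choose d h hdh using hex
  -- the roots
  have hval : ∀ i : PlF k, ∃ u : i.Lv, (q i).val y u ∧ ev2 (i.φ.comp C.c) (i.φ C.T) u Ψ = 0 := by
    intro i
    set T : Set i.Lv := {t | ∃ φ : k →+* i.Lv, φ.comp C.c = i.φ.comp C.c ∧ φ C.T = t} with hT
    have hTinf : T.Infinite := hINF K k hK C i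
    have hchoice : ∀ t : i.Lv, ∃ φ : k →+* i.Lv,
        (t ∈ T → φ.comp C.c = i.φ.comp C.c ∧ φ C.T = t) ∧ (t = i.φ C.T → φ = i.φ) := by
      intro t
      by_cases ht0 : t = i.φ C.T
      · exact ⟨i.φ, fun _ => ⟨rfl, ht0.symm⟩, fun _ => rfl⟩
      · by_cases ht : t ∈ T
        · obtain ⟨φ, h1, h2⟩ := ht
          exact ⟨φ, fun _ => ⟨h1, h2⟩, fun h => absurd h ht0⟩
        · exact ⟨i.φ, fun h => absurd h ht, fun _ => rfl⟩
    choose Φ hΦ1 hΦ2 using hchoice
    have hι0 : ∀ t ∈ T, ∀ p : K[X], p ≠ 0 → eval₂ (i.φ.comp C.c) t p ≠ 0 := by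
      intro t ht p hp
      obtain ⟨h1, h2⟩ := hΦ1 t ht
      have h3 : eval₂ (i.φ.comp C.c) t p = Φ t (eval₂ C.c C.T p) := by
        rw [hom_eval₂, h1, h2]
      rw [h3]
      exact (_root_.map_ne_zero _).2 (crv_ne C hp)
    have hres := hΨ i.Lv (i.φ.comp C.c) T hTinf hι0 (fun t => nrm C q y i (Φ t))
      (fun t _ => ⟨nrm_monic C q y i (Φ t), nrm_natDegree_le C q y i (Φ t)⟩)
      (by
        intro t ht t' ht' c hc c' hc' n1 n2 n3 n4
        obtain ⟨a1, a2⟩ := hΦ1 t ht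
        obtain ⟨b1, b2⟩ := hΦ1 t' ht'
        have hg0 : ∀ c0 < m, g c0 ≠ 0 := fun c0 hc0 =>
          mul_ne_zero (hG c0 hc0).1 (Finset.prod_ne_zero_iff.2 fun j hj =>
            (hG j (Finset.mem_range.1 (Finset.mem_of_mem_erase hj))).2)
        have z1 := hι0 t ht (g c) (hg0 c hc)
        have z2 := hι0 t ht (g c') (hg0 c' hc')
        have z3 := hι0 t' ht' (g c) (hg0 c hc)
        have z4 := hι0 t' ht' (g c') (hg0 c' hc')
        have hden : (nrm C q y i (Φ t)).eval (c' : i.Lv) * (nrm C q y i (Φ t')).eval (c : i.Lv) *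
            (eval₂ (i.φ.comp C.c) t (g c) * eval₂ (i.φ.comp C.c) t' (g c')) ≠ 0 :=
          mul_ne_zero (mul_ne_zero n2 n3) (mul_ne_zero z1 z4)
        have hnum : (nrm C q y i (Φ t)).eval (c : i.Lv) * (nrm C q y i (Φ t')).eval (c' : i.Lv) *
            (eval₂ (i.φ.comp C.c) t (g c') * eval₂ (i.φ.comp C.c) t' (g c)) ≠ 0 :=
          mul_ne_zero (mul_ne_zero n1 n4) (mul_ne_zero z2 z3)
        rw [← div_eq_one_iff_eq hden]
        by_contra hne
        obtain ⟨N, hN, hpow⟩ := Pool.Agent.Helper39.BS.not_pow i.v (div_ne_zero hnum hden) hne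
        obtain ⟨hd, hh, he⟩ := hdh c N hc hN
        obtain ⟨hd', hh', he'⟩ := hdh c' N hc' hN
        obtain ⟨P, Q, hP, hQ, hPQ⟩ := key C q y hNMR hG hN hc hc' (hcls c hc N hN).1
          (hcls c' hc' N hN).1 hh hh' he he' i (Φ t) n1 n2
        obtain ⟨P', Q', hP', hQ', hPQ'⟩ := key C q y hNMR hG hN hc hc' (hcls c hc N hN).1
          (hcls c' hc' N hN).1 hh hh' he he' i (Φ t') n3 n4
        rw [a1, a2] at hPQ
        rw [b1, b2] at hPQ'
        have hcomm : ∀ (φ : k →+* i.Lv), φ.comp C.c = i.φ.comp C.c → ∀ x : K,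
            φ (C.c x) = i.φ (C.c x) := fun φ hφ x => congrArg (fun f : K →+* i.Lv => f x) hφ
        rw [hcomm _ a1, hcomm _ a1] at hPQ
        rw [hcomm _ b1, hcomm _ b1] at hPQ'
        have w1 : i.φ (C.c (d c N)) ≠ 0 := (_root_.map_ne_zero _).2 ((_root_.map_ne_zero _).2 hd)
        have w2 : i.φ (C.c (d c' N)) ≠ 0 := (_root_.map_ne_zero _).2 ((_root_.map_ne_zero _).2 hd')
        apply hpow (Q * P' / (P * Q'))
        rw [div_pow, div_eq_div_iff (pow_ne_zero _ (mul_ne_zero hP hQ')) hden, mul_pow, mul_pow]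
        apply mul_left_cancel₀ (mul_ne_zero w1 w2)
        have e1 : eval₂ (i.φ.comp C.c) t (g c) = eval₂ (i.φ.comp C.c) t
          (G1 c * ∏ c'' ∈ (Finset.range m).erase c, G2 c'') := rfl
        have e2 : eval₂ (i.φ.comp C.c) t (g c') = eval₂ (i.φ.comp C.c) t
          (G1 c' * ∏ c'' ∈ (Finset.range m).erase c', G2 c'') := rfl
        have e3 : eval₂ (i.φ.comp C.c) t' (g c) = eval₂ (i.φ.comp C.c) t'
          (G1 c * ∏ c'' ∈ (Finset.range m).erase c, G2 c'') := rfl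
        have e4 : eval₂ (i.φ.comp C.c) t' (g c') = eval₂ (i.φ.comp C.c) t'
          (G1 c' * ∏ c'' ∈ (Finset.range m).erase c', G2 c'') := rfl
        rw [← e1, ← e2] at hPQ
        rw [← e3, ← e4] at hPQ'
        generalize eval₂ (i.φ.comp C.c) t (g c) = u1 at *
        generalize eval₂ (i.φ.comp C.c) t (g c') = u2 at *
        generalize eval₂ (i.φ.comp C.c) t' (g c) = u3 at *
        generalize eval₂ (i.φ.comp C.c) t' (g c') = u4 at *
        generalize eval (c : i.Lv) (nrm C q y i (Φ t)) = X1 at *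
        generalize eval (c' : i.Lv) (nrm C q y i (Φ t)) = X2 at *
        generalize eval (c : i.Lv) (nrm C q y i (Φ t')) = Y1 at *
        generalize eval (c' : i.Lv) (nrm C q y i (Φ t')) = Y2 at *
        generalize i.φ (C.c (d c N)) = D1 at *
        generalize i.φ (C.c (d c' N)) = D2 at *
        generalize P ^ N = PN at *
        generalize Q ^ N = QN at *
        generalize P' ^ N = PN' at *
        generalize Q' ^ N = QN' at *
        linear_combination (-(Y2 * D1 * u3 * QN')) * hPQ + (X2 * D1 * u1 * QN) * hPQ')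
    -- the point of `i`
    have ht0 : i.φ C.T ∈ T := ⟨i.φ, rfl, rfl⟩
    obtain ⟨hdeg, hdvd⟩ := hres (i.φ C.T) ht0
    have hdeg' : (nrm C q y i (Φ (i.φ C.T))).natDegree = C.f.natDegree := hdeg
    have hdvd' : nrm C q y i (Φ (i.φ C.T)) ∣
        Ψ.map (eval₂RingHom (i.φ.comp C.c) (i.φ C.T)) := hdvd
    rw [hΦ2 _ rfl] at hdeg' hdvd'
    -- the identity among the automorphisms
    obtain ⟨j, hj⟩ : ∃ j, C.aut j C.α = C.α := by
      have h1 : (C.f.map (eval₂RingHom C.c C.T)).eval C.α = 0 := by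
        rw [eval_map]
        exact C.root
      rw [C.split, eval_prod, Finset.prod_eq_zero_iff] at h1
      obtain ⟨j, -, hj⟩ := h1
      refine ⟨j, ?_⟩
      rw [eval_sub, eval_X, eval_C, sub_eq_zero] at hj
      exact hj.symm
    have hid : C.aut j = RingHom.id k := by
      apply RingHom.ext
      intro x
      obtain ⟨B, e, he, hx⟩ := C.gen x
      have h1 := congrArg (C.aut j) hx
      rw [map_mul, aut_ev, hj, hom_eval₂, C.aut_T] at h1
      have h2 : (C.aut j).comp C.c = C.c := RingHom.ext fun x => C.aut_c j x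
      rw [h2, ← hx] at h1
      exact mul_right_cancel₀ (crv_ne C he) h1
    have hfin := finite_of_degree C q y hdeg' j
    have hffi : ff q y i (i.φ.comp (C.aut j)) = fac (q i) y := by
      rw [hid, RingHom.comp_id]
      rfl
    rw [hffi] at hfin
    obtain ⟨u, hu, hu0⟩ := mem_of_fac (q i) hfin
    refine ⟨u, hu, ?_⟩
    have h5 : (nrm C q y i i.φ).eval u = 0 := by
      unfold nrm
      rw [eval_prod]
      refine Finset.prod_eq_zero (Finset.mem_univ j) ?_
      rw [hffi, hu0]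
    obtain ⟨R, hR⟩ := hdvd'
    have h6 := congrArg (Polynomial.eval u) hR
    rw [eval_mul, h5, zero_mul, eval_map] at h6
    exact h6
  -- the function
  refine ⟨ev2 ((algebraMap k F0).comp C.c) (algebraMap k F0 C.T) y Ψ, ?_, fun i => ?_⟩
  · intro h0
    apply hy
    refine ⟨Ψ.map (eval₂RingHom C.c C.T), ?_, ?_⟩
    · intro h1
      apply hΨ0
      ext1 j
      have h2 := congrArg (fun p => p.coeff j) h1
      simp only [coeff_map, coeff_zero] at h2
      rw [coeff_zero]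
      by_contra h3
      exact crv_ne C h3 h2
    · rw [aeval_def, eval₂_map, ← h0, ev2, coe_eval₂RingHom]
      congr 1
      ext a
      · simp
      · simp
  · obtain ⟨u, hu, hu0⟩ := hval i
    have h1 := Plc.val_aeval hu (Ψ.map (eval₂RingHom C.c C.T))
    have e1 : aeval y (Ψ.map (eval₂RingHom C.c C.T)) =
        ev2 ((algebraMap k F0).comp C.c) (algebraMap k F0 C.T) y Ψ := by
      rw [aeval_def, eval₂_map, ev2, coe_eval₂RingHom]
      congr 1
      ext a
      · simp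
      · simp
    have e2 : aeval u (Ψ.map (eval₂RingHom C.c C.T)) = 0 := by
      rw [← hu0, aeval_def, eval₂_map, ev2, coe_eval₂RingHom]
      congr 1
      ext a
      · simp [PlF.algebraMap_eq]
      · simp [PlF.algebraMap_eq]
    rw [e1, e2] at h1
    exact h1

end Pool.Agent.Helper88.FX.E2
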