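import Pool.Agent.Helper88.FX.CrvD
import Mathlib.FieldTheory.FinTrdeg

/-!
# Package CRV, part 4: finitely generated fields of positive transcendence degree (not a result)
-/

set_option autoImplicit false
set_option linter.unusedSectionVars false

open Polynomial
open scoped nonZeroDivisors

namespace Pool.Agent.Helper88.FX.Crv

open Pool.Agent.Helper39.FX

/-- `k` is finite over the field of rational functions over a finitely generated field -/
theorem exists_base (k : Type) [Field k] [CharZero k] (hk : Algebra.EssFiniteType ℚ k)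
    (hx : ∃ x : k, Transcendental ℚ x) :
    ∃ (K0 : Type) (_ : Field K0) (_ : CharZero K0) (_ : Algebra (RatFunc K0) k),
      Algebra.EssFiniteType ℚ K0 ∧ FiniteDimensional (RatFunc K0) k := by
  classical
  obtain ⟨s, hs⟩ := exists_finset_isTranscendenceBasis ℚ k
  obtain ⟨⟨x, hxs⟩⟩ : Nonempty s := hs.nonempty_iff_transcendental.2 ⟨hx⟩
  set S : Set k := (Subtype.val : s → k) '' {(⟨x, hxs⟩ : s)}ᶜ with hS
  let K0 : IntermediateField ℚ k := IntermediateField.adjoin ℚ S
  have hfinS : S.Finite := Set.Finite.image _ (Set.toFinite _)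
  have hK0 : Algebra.EssFiniteType ℚ K0 :=
    IntermediateField.essFiniteType_iff.2 (IntermediateField.fg_adjoin_of_finite hfinS)
  have hT : Transcendental K0 x := IntermediateField.transcendental_adjoin_iff.2
    (hs.1.transcendental_adjoin (s := {(⟨x, hxs⟩ : s)}ᶜ) (i := ⟨x, hxs⟩) (by simp))
  obtain ⟨ψ, hψ⟩ := CrvD.exists_lift hT
  let _ : Algebra (RatFunc K0) k := ψ.toAlgebra
  have hrange : ∀ z ∈ IntermediateField.adjoin ℚ (Set.range (Subtype.val : s → k)),
      ∃ r, ψ r = z := by
    have h1 : IntermediateField.adjoin ℚ (Set.range (Subtype.val : s → k)) ≤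
        (ψ.toRatAlgHom).fieldRange := by
      rw [IntermediateField.adjoin_le_iff]
      rintro _ ⟨⟨y, hy⟩, rfl⟩
      by_cases hyx : y = x
      · refine ⟨algebraMap K0[X] (RatFunc K0) X, ?_⟩
        change ψ _ = y
        rw [hψ, aeval_X, hyx]
      · have h2 : y ∈ K0 := IntermediateField.subset_adjoin _ _ ⟨⟨y, hy⟩, by
          intro h
          exact hyx (congrArg Subtype.val h), rfl⟩
        refine ⟨algebraMap K0[X] (RatFunc K0) (C ⟨y, h2⟩), ?_⟩
        change ψ _ = y
        rw [hψ, aeval_C]
        rfl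
    intro z hz
    obtain ⟨r, hr⟩ := h1 hz
    exact ⟨r, hr⟩
  have halg : Algebra.IsAlgebraic (RatFunc K0) k := by
    refine ⟨fun z => ?_⟩
    obtain ⟨p, hp0, hp⟩ := hs.isAlgebraic_field.isAlgebraic z
    have h1 : p.map (algebraMap _ k) ∈ lifts ψ := by
      rw [lifts_iff_coeff_lifts]
      intro n
      rw [coeff_map]
      exact hrange _ (p.coeff n).2
    obtain ⟨q, hq⟩ := h1
    have hq' : q.map ψ = p.map (algebraMap _ k) := hq
    refine ⟨q, ?_, ?_⟩
    · rintro rfl
      rw [Polynomial.map_zero] at hq'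
      exact hp0 ((Polynomial.map_eq_zero _).1 hq'.symm)
    · rw [aeval_def, ← eval_map]
      change eval z (q.map ψ) = 0
      rw [hq', eval_map]
      exact hp
  have hess : Algebra.EssFiniteType (RatFunc K0) k := Algebra.EssFiniteType.of_comp ℚ (RatFunc K0) k
  exact ⟨K0, inferInstance, inferInstance, inferInstance, hK0,
    Algebra.finite_of_essFiniteType_of_isAlgebraic⟩

theorem main : S_CRV := by
  intro k _ _ hk hx
  obtain ⟨K0, _, _, _, hK0, hfin⟩ := exists_base k hk hx
  have halg : Algebra.IsAlgebraic (RatFunc K0) (AlgebraicClosure k) :=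
    Algebra.IsAlgebraic.trans (RatFunc K0) k (AlgebraicClosure k)
  have hcl : IsAlgClosure (RatFunc K0) (AlgebraicClosure k) := ⟨inferInstance, halg⟩
  have hnor : Normal (RatFunc K0) (AlgebraicClosure k) := IsAlgClosure.normal _ _
  have hch : CharZero (RatFunc K0) :=
    charZero_of_injective_algebraMap (algebraMap K0 (RatFunc K0)).injective
  let k1 := IntermediateField.normalClosure (RatFunc K0) k (AlgebraicClosure k)
  have hfin1 : FiniteDimensional (RatFunc K0) k1 := inferInstance
  have hgal : IsGalois (RatFunc K0) k1 := ⟨⟩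
  have hfin2 : FiniteDimensional k k1 := Module.Finite.of_restrictScalars_finite (RatFunc K0) k k1
  obtain ⟨K, iK, hchK, hK, hC⟩ := CrvD.main (L := k1) hK0
  exact ⟨k1, inferInstance, inferInstance, hfin2, K, iK, hchK, hK, hC⟩

end Pool.Agent.Helper88.FX.Crv
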