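import Pool.Agent.Helper88.FX.CrvOf

/-!
# Package CRV, part 3: the algebraic closure of the constants (not a result)
-/

set_option autoImplicit false
set_option linter.unusedSectionVars false

open Polynomial
open scoped nonZeroDivisors

namespace Pool.Agent.Helper88.FX.CrvD

open Pool.Agent.Helper39.FX

/-- rational functions of a transcendental element -/
theorem exists_lift {K L : Type} [Field K] [Field L] [Algebra K L] {T : L}
    (hT : Transcendental K T) : ∃ ψ : RatFunc K →+* L,
      (∀ p : K[X], ψ (algebraMap K[X] (RatFunc K) p) = aeval T p) := by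
  have hinj : Function.Injective ((aeval T : K[X] →ₐ[K] L) : K[X] →+* L) :=
    transcendental_iff_injective.1 hT
  exact ⟨IsFractionRing.lift hinj, fun p => IsFractionRing.lift_algebraMap hinj p⟩

theorem main {K0 L : Type} [Field K0] [CharZero K0] [Field L] [Algebra (RatFunc K0) L]
    [FiniteDimensional (RatFunc K0) L] [IsGalois (RatFunc K0) L]
    (hK0 : Algebra.EssFiniteType ℚ K0) :
    ∃ (K : Type) (_ : Field K) (_ : CharZero K), Algebra.EssFiniteType ℚ K ∧
      Nonempty (Crv K L) := by
  classical
  let _ : Algebra K0 L := ((algebraMap (RatFunc K0) L).comp (algebraMap K0 (RatFunc K0))).toAlgebra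
  have tow0 : IsScalarTower K0 (RatFunc K0) L := IsScalarTower.of_algebraMap_eq fun _ => rfl
  let _ : Algebra K0[X] L :=
    ((algebraMap (RatFunc K0) L).comp (algebraMap K0[X] (RatFunc K0))).toAlgebra
  have tow1 : IsScalarTower K0[X] (RatFunc K0) L := IsScalarTower.of_algebraMap_eq fun _ => rfl
  set T : L := algebraMap K0[X] L X with hT
  have hTp : ∀ p : K0[X], algebraMap K0[X] L p = aeval T p := by
    intro p
    have h1 : (algebraMap K0[X] L) = ((aeval T : K0[X] →ₐ[K0] L) : K0[X] →+* L) := by
      apply Polynomial.ringHom_ext
      · intro a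
        change algebraMap (RatFunc K0) L (algebraMap K0[X] (RatFunc K0) (C a)) = aeval T (C a)
        rw [aeval_C]
        change _ = algebraMap (RatFunc K0) L (algebraMap K0 (RatFunc K0) a)
        rw [IsScalarTower.algebraMap_apply K0 K0[X] (RatFunc K0)]
        rfl
      · rw [RingHom.coe_coe, aeval_X]
    exact congrArg (fun φ : K0[X] →+* L => φ p) h1
  have hT0 : Transcendental K0 T := by
    rw [transcendental_iff_injective]
    intro p q hpq
    rw [← hTp, ← hTp] at hpq
    exact IsFractionRing.injective K0[X] (RatFunc K0) ((algebraMap (RatFunc K0) L).injective hpq)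
  let K : IntermediateField K0 L := algebraicClosure K0 L
  have halg : Algebra.IsAlgebraic K0 K := algebraicClosure.isAlgebraic K0 L
  have hTK : Transcendental K T := fun h => hT0 (h.restrictScalars K0)
  obtain ⟨ψ, hψ⟩ := exists_lift hTK
  let _ : Algebra (RatFunc K) L := ψ.toAlgebra
  -- the inclusion of the rational functions
  have hinj : Function.Injective ((algebraMap K[X] (RatFunc K)).comp
      (mapRingHom (algebraMap K0 K))) :=
    (IsFractionRing.injective K[X] (RatFunc K)).comp
      (Polynomial.map_injective _ (algebraMap K0 K).injective)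
  let χ : RatFunc K0 →+* RatFunc K := IsFractionRing.lift hinj
  let _ : Algebra (RatFunc K0) (RatFunc K) := χ.toAlgebra
  have tow2 : IsScalarTower (RatFunc K0) (RatFunc K) L := by
    refine IsScalarTower.of_algebraMap_eq' ?_
    refine IsLocalization.ringHom_ext (K0[X]⁰) ?_
    apply RingHom.ext
    intro p
    change algebraMap (RatFunc K0) L (algebraMap K0[X] (RatFunc K0) p) =
      ψ (χ (algebraMap K0[X] (RatFunc K0) p))
    have h1 : χ (algebraMap K0[X] (RatFunc K0) p) =
        algebraMap K[X] (RatFunc K) (p.map (algebraMap K0 K)) :=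
      IsFractionRing.lift_algebraMap hinj p
    rw [h1, hψ, aeval_map_algebraMap]
    exact hTp p
  have hfin : FiniteDimensional (RatFunc K) L :=
    FiniteDimensional.right (RatFunc K0) (RatFunc K) L
  have hgal : IsGalois (RatFunc K) L :=
    IsGalois.tower_top_of_isGalois (RatFunc K0) (RatFunc K) L
  have hψK : ∀ a : K, ψ (algebraMap K (RatFunc K) a) = (a : L) := by
    intro a
    rw [IsScalarTower.algebraMap_apply K K[X] (RatFunc K), hψ]
    change aeval T (C a) = _
    rw [aeval_C]
    rfl
  -- the constants are finite over `K0`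
  have hfinK : Module.Finite K0 K := by
    have hli : LinearIndependent (RatFunc K0)
        (fun i => ((Module.Basis.ofVectorSpace K0 K i : K) : L)) := by
      rw [← LinearIndependent.iff_fractionRing K0[X] (RatFunc K0), linearIndependent_iff']
      intro s p hp i hi
      set b := Module.Basis.ofVectorSpace K0 K with hb
      have hP : ∑ j ∈ s, C (b j) * (p j).map (algebraMap K0 K) = 0 := by
        apply transcendental_iff_injective.1 hTK
        rw [map_zero, map_sum, ← hp]
        refine Finset.sum_congr rfl fun j _ => ?_
        rw [map_mul, aeval_C, aeval_map_algebraMap, Algebra.smul_def, hTp, mul_comm]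
        rfl
      ext n
      rw [coeff_zero]
      have h1 := congrArg (fun P : K[X] => P.coeff n) hP
      simp only [finsetSum_coeff, coeff_C_mul, coeff_map, coeff_zero] at h1
      have h2 : ∑ j ∈ s, (p j).coeff n • b j = 0 := by
        rw [← h1]
        refine Finset.sum_congr rfl fun j _ => ?_
        rw [Algebra.smul_def, mul_comm]
      exact linearIndependent_iff'.1 b.linearIndependent s _ h2 i hi
    have hfi : Finite (Module.Basis.ofVectorSpaceIndex K0 K) := hli.finite_of_isNoetherian
    exact Module.Finite.of_basis (Module.Basis.ofVectorSpace K0 K)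
  have hess : Algebra.EssFiniteType ℚ K := Algebra.EssFiniteType.comp ℚ K0 K
  have hch : CharZero K := charZero_of_injective_algebraMap (algebraMap K0 K).injective
  refine ⟨K, inferInstance, hch, hess, CrvOf.crv_of ?_⟩
  intro z P hP hPz
  have h1 : aeval z P = 0 := by
    rw [← hPz, aeval_def]
    congr 1
    apply RingHom.ext
    intro a
    exact (hψK a).symm
  have h2 : IsAlgebraic K z := ⟨P, hP, h1⟩
  have h3 : z ∈ K := mem_algebraicClosure_iff.2 (h2.restrictScalars K0)
  exact ⟨⟨z, h3⟩, hψK ⟨z, h3⟩⟩

end Pool.Agent.Helper88.FX.CrvD
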