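import Pool.Agent.Helper88.FX.Irr

/-!
# Package CRV, part 2: finite Galois extensions of `K(T)` are function fields of curves
(not a result)
-/

set_option autoImplicit false
set_option linter.unusedSectionVars false

open Polynomial
open scoped nonZeroDivisors

namespace Pool.Agent.Helper88.FX.CrvOf

open Pool.Agent.Helper39.FX

lemma exists_fin_prod {L M : Type} [CommMonoid M] (s : Multiset L) (n : ℕ)
    (h : Multiset.card s = n) (g : L → M) :
    ∃ r : Fin n → L, (∀ j, r j ∈ s) ∧ (s.map g).prod = ∏ j, g (r j) := by
  subst h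
  induction s using Quotient.inductionOn with
  | _ l =>
    refine ⟨fun j => l.get j, fun j => List.get_mem l j, ?_⟩
    change ((l : Multiset L).map g).prod = _
    rw [Multiset.map_coe, Multiset.prod_coe]
    change _ = ∏ j : Fin l.length, g (l.get j)
    rw [← List.prod_ofFn]
    congr 1
    apply List.ext_get
    · simp
    · intro i h1 h2
      simp

/-- a finite Galois extension of `K(T)` in which `K` is algebraically closed -/
theorem crv_of {K L : Type} [Field K] [CharZero K] [Field L] [Algebra (RatFunc K) L]
    [FiniteDimensional (RatFunc K) L] [IsGalois (RatFunc K) L]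
    (hcl : ∀ (z : L) (P : K[X]), P ≠ 0 →
      P.eval₂ ((algebraMap (RatFunc K) L).comp (algebraMap K (RatFunc K))) z = 0 →
      ∃ a, algebraMap (RatFunc K) L (algebraMap K (RatFunc K) a) = z) : Nonempty (Crv K L) := by
  classical
  set c : K →+* L := (algebraMap (RatFunc K) L).comp (algebraMap K (RatFunc K)) with hc
  let _ : Algebra K[X] L := ((algebraMap (RatFunc K) L).comp (algebraMap K[X] (RatFunc K))).toAlgebra
  have tow : IsScalarTower K[X] (RatFunc K) L := IsScalarTower.of_algebraMap_eq fun _ => rfl
  have hinj : Function.Injective (algebraMap K[X] L) :=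
    (algebraMap (RatFunc K) L).injective.comp (IsFractionRing.injective K[X] (RatFunc K))
  have hfs : FaithfulSMul K[X] L := (faithfulSMul_iff_algebraMap_injective K[X] L).2 hinj
  set T : L := algebraMap K[X] L X with hT
  have hcC : ∀ a, c a = algebraMap K[X] L (C a) := by
    intro a
    rw [hc]
    change algebraMap (RatFunc K) L (algebraMap K (RatFunc K) a) = algebraMap (RatFunc K) L
      (algebraMap K[X] (RatFunc K) (C a))
    rw [IsScalarTower.algebraMap_apply K K[X] (RatFunc K)]
    rfl
  have hmap : eval₂RingHom c T = algebraMap K[X] L := by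
    ext a
    · simp [hcC]
    · simp [hT]
  have hev : ∀ (α : L) (A : K[X][X]), ev2 c T α A = aeval α A := by
    intro α A
    rw [ev2, coe_eval₂RingHom, hmap]
    rfl
  -- the generator
  obtain ⟨α0, h0⟩ := Field.exists_primitive_element (RatFunc K) L
  have halg0 : IsAlgebraic K[X] α0 := (IsFractionRing.isAlgebraic_iff K[X] (RatFunc K) L).2
    (Algebra.IsAlgebraic.isAlgebraic α0)
  obtain ⟨y, hy0, hint⟩ := halg0.exists_integral_multiple
  set α := y • α0 with hα
  have htop : IntermediateField.adjoin (RatFunc K) {α} = ⊤ := by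
    rw [eq_top_iff, ← h0, IntermediateField.adjoin_simple_le_iff]
    have h1 : algebraMap (RatFunc K) L (algebraMap K[X] (RatFunc K) y) ≠ 0 := by
      have h2 : algebraMap K[X] L y ≠ 0 := (map_ne_zero_iff _ hinj).2 hy0
      exact h2
    have h3 : α0 = (algebraMap (RatFunc K) L (algebraMap K[X] (RatFunc K) y))⁻¹ * α := by
      rw [hα, Algebra.smul_def]
      change α0 = _ * (algebraMap (RatFunc K) L (algebraMap K[X] (RatFunc K) y) * α0)
      rw [inv_mul_cancel_left₀ h1]
    have h4 : (algebraMap (RatFunc K) L (algebraMap K[X] (RatFunc K) y))⁻¹ * α ∈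
        IntermediateField.adjoin (RatFunc K) {α} :=
      mul_mem (inv_mem (IntermediateField.algebraMap_mem _ _))
        (IntermediateField.mem_adjoin_simple_self _ _)
    rwa [← h3] at h4
  set f : K[X][X] := minpoly K[X] α with hf
  have hfm : f.Monic := minpoly.monic hint
  have hpos : 0 < f.natDegree := minpoly.natDegree_pos hint
  have hfF : minpoly (RatFunc K) α = f.map (algebraMap K[X] (RatFunc K)) :=
    minpoly.isIntegrallyClosed_eq_field_fractions' (RatFunc K) hint
  have hroot : ev2 c T α f = 0 := by
    rw [hev]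
    exact minpoly.aeval _ _
  have hmin : ∀ A : K[X][X], ev2 c T α A = 0 → f ∣ A := by
    intro A hA
    rw [hev] at hA
    exact minpoly.isIntegrallyClosed_dvd hint hA
  have hgen : ∀ x : L, ∃ (A : K[X][X]) (d : K[X]), d ≠ 0 ∧ x * eval₂ c T d = ev2 c T α A := by
    intro x
    have h1 : x ∈ Algebra.adjoin (RatFunc K) {α} := by
      have h2 := (IntermediateField.adjoin_simple_eq_top_iff_of_isAlgebraic
        (Algebra.IsAlgebraic.isAlgebraic α)).1 htop
      rw [h2]
      exact Algebra.mem_top
    obtain ⟨P, hP⟩ := Algebra.adjoin_mem_exists_aeval (RatFunc K) α h1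
    obtain ⟨b, hb0, hb⟩ := IsLocalization.integerNormalization_spec (K[X]⁰) P
    refine ⟨IsLocalization.integerNormalization (K[X]⁰) P, b, nonZeroDivisors.ne_zero hb0, ?_⟩
    have h3 : eval₂ c T b = algebraMap K[X] L b := by
      rw [← hmap]
      rfl
    rw [hev, h3, ← aeval_map_algebraMap (RatFunc K), hb, ← algebraMap_smul (RatFunc K) b P,
      map_smul, hP, Algebra.smul_def, mul_comm]
    rfl
  -- the conjugates
  have hsp : (f.map (eval₂RingHom c T)).Splits := by
    have h1 := (IsGalois.to_normal (F := RatFunc K) (E := L)).splits α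
    rw [hfF, Polynomial.map_map, ← IsScalarTower.algebraMap_eq, ← hmap] at h1
    exact h1
  have hprod := hsp.eq_prod_roots_of_monic (hfm.map _)
  have hcard : Multiset.card (f.map (eval₂RingHom c T)).roots = f.natDegree := by
    rw [← hsp.natDegree_eq_card_roots, hfm.natDegree_map]
  obtain ⟨r, hr, hrp⟩ := exists_fin_prod _ _ hcard (fun a => (X - C a : L[X]))
  have hσ : ∀ j, ∃ σ : L ≃ₐ[RatFunc K] L, σ α = r j := by
    intro j
    refine minpoly.exists_algEquiv_of_root' (Algebra.IsAlgebraic.isAlgebraic α) ?_
    have h1 := (mem_roots (hfm.map _).ne_zero).1 (hr j)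
    rw [IsRoot.def, eval_map, hmap] at h1
    rw [hfF, aeval_map_algebraMap]
    exact h1
  choose σ hσ using hσ
  exact ⟨{
    c := c
    T := T
    α := α
    f := f
    monic := hfm
    pos := hpos
    root := hroot
    gen := hgen
    min := hmin
    irr := Irr.irr c T α f hfm hpos hroot hmin hcl
    aut := fun j => (σ j : L →+* L)
    aut_c := fun j x => (σ j).commutes _
    aut_T := fun j => (σ j).commutes _
    split := by
      rw [hprod, hrp]
      refine Finset.prod_congr rfl fun j _ => ?_
      rw [← hσ]
      rfl }⟩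

end Pool.Agent.Helper88.FX.CrvOf
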