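import Pool.Agent.Helper39.FX.Defs
import Pool.Agent.Helper39.BS.Pow
import Pool.Graph.R_seed8.Y791.BC.LegA

/-!
# Package E2, part 1: the classes of the norms of the values (not a result)
-/

set_option autoImplicit false
set_option linter.unusedSectionVars false

open Polynomial IsDedekindDomain NumberField

namespace Pool.Agent.Helper88.FX.E2

open Pool.Agent.TH954 Pool.Agent.Y791.BF Pool.Agent.Helper39.FT Pool.Agent.Helper39.FX

section plc

variable {k : Type} [Field k] {F0 : Type} [Field F0] [Algebra k F0] {L : Type} [Field L]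
  [Algebra k L] (Q : Plc k F0 L)

/-- the value of an element of a class -/
lemma kum_val {f g : F0} {c : k} (hc : c ≠ 0) {m : ℕ} (hm : 0 < m)
    (hf : f = algebraMap k F0 c * g ^ m) {v : L} (hv : Q.val f v) :
    ∃ γ : L, v = algebraMap k L c * γ ^ m := by
  have hcF : algebraMap k F0 c ≠ 0 := (_root_.map_ne_zero _).2 hc
  have hcL : algebraMap k L c ≠ 0 := (_root_.map_ne_zero _).2 hc
  have h1 := hv.mul ((Plc.val_alg (pl := Q) c).inv hcL)
  have e1 : f * (algebraMap k F0 c)⁻¹ = g ^ m := by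
    rw [hf, mul_comm, ← mul_assoc, inv_mul_cancel₀ hcF, one_mul]
  rw [e1] at h1
  obtain ⟨γ, hγ⟩ := Plc.val_of_mem (Plc.mem_of_pow_mem hm h1.mem)
  refine ⟨γ, ?_⟩
  have h2 := (hγ.pow m).unique h1
  rw [h2, mul_comm, mul_assoc, inv_mul_cancel₀ hcL, mul_one]

/-- classes at a pole -/
lemma kum_inf {y g g' : F0} {c c' : ℕ} {a a' : k} (ha : a ≠ 0) (ha' : a' ≠ 0) {m : ℕ} (hm : 0 < m)
    (h : y - (c : F0) = algebraMap k F0 a * g ^ m)
    (h' : y - (c' : F0) = algebraMap k F0 a' * g' ^ m) (hn : y ∉ Q.W) :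
    ∃ γ : L, γ ≠ 0 ∧ algebraMap k L a' = algebraMap k L a * γ ^ m := by
  have hmem : ∀ n : ℕ, (n : F0) ∈ Q.W := fun n => natCast_mem _ n
  have hn1 : y - (c : F0) ∉ Q.W := fun h1 => hn (by
    have := add_mem h1 (hmem c)
    rwa [sub_add_cancel] at this)
  have hn2 : y - (c' : F0) ∉ Q.W := fun h1 => hn (by
    have := add_mem h1 (hmem c')
    rwa [sub_add_cancel] at this)
  have hx0 : y - (c' : F0) ≠ 0 := by
    intro h0
    rw [h0] at hn2
    exact hn2 (zero_mem _)
  have hy0 : y - (c : F0) ≠ 0 := by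
    intro h0
    rw [h0] at hn1
    exact hn1 (zero_mem _)
  have haF : algebraMap k F0 a ≠ 0 := (_root_.map_ne_zero _).2 ha
  have haF' : algebraMap k F0 a' ≠ 0 := (_root_.map_ne_zero _).2 ha'
  have haL : algebraMap k L a ≠ 0 := (_root_.map_ne_zero _).2 ha
  have haL' : algebraMap k L a' ≠ 0 := (_root_.map_ne_zero _).2 ha'
  have hg0 : g ≠ 0 := by
    rintro rfl
    rw [zero_pow hm.ne', mul_zero] at h
    exact hy0 h
  have hg0' : g' ≠ 0 := by
    rintro rfl
    rw [zero_pow hm.ne', mul_zero] at h'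
    exact hx0 h'
  -- the value of the quotient is one
  have v1 : Q.val ((y - (c : F0)) * (y - (c' : F0))⁻¹) 1 := by
    have e : (y - (c : F0)) * (y - (c' : F0))⁻¹ =
        1 + ((c' : F0) - (c : F0)) * (y - (c' : F0))⁻¹ := by
      field_simp
      ring
    rw [e]
    have h1 := (Plc.val_one (pl := Q)).add
      (((Plc.val_natCast (pl := Q) c').sub (Plc.val_natCast (pl := Q) c)).mul
        (Plc.val_inv_of_notMem hn2))
    rwa [mul_zero, add_zero] at h1
  have v2 := v1.mul (Plc.val_alg (pl := Q) a')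
  rw [one_mul] at v2
  have e2 : (y - (c : F0)) * (y - (c' : F0))⁻¹ * algebraMap k F0 a' =
      algebraMap k F0 a * (g / g') ^ m := by
    rw [h, h', div_pow]
    field_simp
  obtain ⟨γ, hγ⟩ := kum_val Q ha hm e2 v2
  refine ⟨γ, ?_, hγ⟩
  rintro rfl
  rw [zero_pow hm.ne', mul_zero] at hγ
  exact haL' hγ

open scoped Classical in
/-- the factor of the norm of `Z - y` given by a place -/
noncomputable def fac (y : F0) : L[X] := if h : y ∈ Q.W then X - C (Q.ρ ⟨y, h⟩) else 1

lemma fac_monic (y : F0) : (fac Q y).Monic := by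
  unfold fac
  split_ifs
  · exact monic_X_sub_C _
  · exact monic_one

lemma fac_natDegree_le (y : F0) : (fac Q y).natDegree ≤ 1 := by
  unfold fac
  split_ifs
  · rw [natDegree_X_sub_C]
  · rw [natDegree_one]
    exact Nat.zero_le 1

lemma mem_of_fac {y : F0} (h : (fac Q y).natDegree = 1) :
    ∃ u, Q.val y u ∧ (fac Q y).eval u = 0 := by
  unfold fac at h ⊢
  split_ifs at h ⊢ with hy
  · exact ⟨_, ⟨hy, rfl⟩, by simp⟩
  · rw [natDegree_one] at h
    exact absurd h (by norm_num)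

/-- the factors and the classes -/
lemma fac_class {y g g' : F0} {c c' : ℕ} {a a' : k} (ha : a ≠ 0) (ha' : a' ≠ 0) {m : ℕ}
    (hm : 0 < m) (h : y - (c : F0) = algebraMap k F0 a * g ^ m)
    (h' : y - (c' : F0) = algebraMap k F0 a' * g' ^ m) (h1 : (fac Q y).eval (c : L) ≠ 0)
    (h2 : (fac Q y).eval (c' : L) ≠ 0) :
    ∃ γ : L, γ ≠ 0 ∧ (fac Q y).eval (c : L) * algebraMap k L a' =
      (fac Q y).eval (c' : L) * algebraMap k L a * γ ^ m := by
  by_cases hy : y ∈ Q.W
  · have e : fac Q y = X - C (Q.ρ ⟨y, hy⟩) := dif_pos hy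
    rw [e] at h1 h2 ⊢
    set u := Q.ρ ⟨y, hy⟩ with hu
    have hv : Q.val y u := ⟨hy, rfl⟩
    simp only [eval_sub, eval_X, eval_C] at h1 h2 ⊢
    have haL' : algebraMap k L a' ≠ 0 := (_root_.map_ne_zero _).2 ha'
    obtain ⟨γ, hγ⟩ := kum_val Q ha hm h (hv.sub (Plc.val_natCast c))
    obtain ⟨γ', hγ'⟩ := kum_val Q ha' hm h' (hv.sub (Plc.val_natCast c'))
    have hγ0 : γ ≠ 0 := by
      rintro rfl
      rw [zero_pow hm.ne', mul_zero] at hγ
      exact h1 (by linear_combination -hγ)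
    have hγ0' : γ' ≠ 0 := by
      rintro rfl
      rw [zero_pow hm.ne', mul_zero] at hγ'
      exact h2 (by linear_combination -hγ')
    refine ⟨γ / γ', div_ne_zero hγ0 hγ0', ?_⟩
    have e1 : (c : L) - u = -(algebraMap k L a * γ ^ m) := by linear_combination -hγ
    have e2 : (c' : L) - u = -(algebraMap k L a' * γ' ^ m) := by linear_combination -hγ'
    rw [e1, e2, div_pow]
    field_simp
  · have e : fac Q y = 1 := dif_neg hy
    rw [e, eval_one, eval_one, one_mul, one_mul]
    exact kum_inf Q ha ha' hm h h' hy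

end plc

end Pool.Agent.Helper88.FX.E2
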