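import Pool.Agent.Helper88.FX.E2a

/-!
# Package E2, part 2: the norms of the values (not a result)
-/

set_option autoImplicit false
set_option linter.unusedSectionVars false

open Polynomial IsDedekindDomain NumberField

namespace Pool.Agent.Helper88.FX.E2

open Pool.Agent.TH954 Pool.Agent.Y791.BF Pool.Agent.Helper39.FT Pool.Agent.Helper39.FX

lemma ev2_hom {R L L' : Type} [CommRing R] [CommRing L] [CommRing L'] (f : L →+* L')
    (ι : R →+* L) (t s : L) (A : R[X][X]) :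
    f (ev2 ι t s A) = ev2 (f.comp ι) (f t) (f s) A := by
  rw [ev2, ev2, coe_eval₂RingHom, coe_eval₂RingHom, hom_eval₂]
  congr 1
  ext a
  · simp
  · simp

section crv

variable {K k : Type} [Field K] [Field k] (C : Crv K k)

lemma crv_ne {d : K[X]} (hd : d ≠ 0) : eval₂ C.c C.T d ≠ 0 := by
  intro h
  have h1 : ev2 C.c C.T C.α (Polynomial.C d) = 0 := by
    rw [ev2, coe_eval₂RingHom, eval₂_C]
    exact h
  obtain ⟨r, hr⟩ := C.min _ h1
  have hr0 : r ≠ 0 := by
    rintro rfl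
    rw [mul_zero, C_eq_zero] at hr
    exact hd hr
  have h2 := congrArg natDegree hr
  rw [C.monic.natDegree_mul' hr0, natDegree_C] at h2
  have := C.pos
  omega

lemma aut_ev (j : Fin C.f.natDegree) (A : K[X][X]) :
    C.aut j (ev2 C.c C.T C.α A) = ev2 C.c C.T (C.aut j C.α) A := by
  rw [ev2_hom, C.aut_T]
  congr 1
  have h : (C.aut j).comp C.c = C.c := RingHom.ext fun x => C.aut_c j x
  rw [h]

/-- the norm of a function at a point -/
lemma norm_eval (hNMR : S_NMR) {L : Type} [Field L] (φ : k →+* L) (A : K[X][X]) :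
    ∏ j, φ (C.aut j (ev2 C.c C.T C.α A)) =
      eval₂ (φ.comp C.c) (φ C.T) (resultant C.f A) := by
  set ψ : K[X] →+* L := eval₂RingHom (φ.comp C.c) (φ C.T) with hψ
  have h1 := hNMR.1 K[X] L ψ C.f A C.monic
  have h2 : C.f.map ψ = ∏ j, (X - Polynomial.C (φ (C.aut j C.α))) := by
    have h3 := congrArg (Polynomial.map φ) C.split
    rw [Polynomial.map_map, Polynomial.map_prod] at h3
    have h4 : φ.comp (eval₂RingHom C.c C.T) = ψ := by
      ext a
      · simp [hψ]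
      · simp [hψ]
    rw [h4] at h3
    rw [h3]
    refine Finset.prod_congr rfl fun j _ => ?_
    rw [Polynomial.map_sub, map_X, map_C]
  rw [h2, hNMR.2.1 L C.f.natDegree] at h1
  have h5 : ψ (resultant C.f A) = eval₂ (φ.comp C.c) (φ C.T) (resultant C.f A) := rfl
  rw [← h5, ← h1]
  refine Finset.prod_congr rfl fun j _ => ?_
  rw [aut_ev, ev2_hom, eval_map]
  rfl

variable {F0 : Type} [Field F0] [Algebra k F0] (q : ∀ i : PlF k, Plc k F0 i.Lv) (y : F0)

/-- the place of `k` given by an embedding -/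
abbrev pt (i : PlF k) (φ : k →+* i.Lv) : PlF k := ⟨i.L, i.v, φ⟩

/-- the factor at a place -/
noncomputable def facP (i : PlF k) : i.Lv[X] := fac (q i) y

/-- the factor at the place of an embedding -/
noncomputable def ff (i : PlF k) (φ : k →+* i.Lv) : i.Lv[X] := facP q y (pt i φ)

lemma ff_monic (i : PlF k) (φ : k →+* i.Lv) : (ff q y i φ).Monic := by
  have h : ∀ i : PlF k, (facP q y i).Monic := fun i => fac_monic (q i) y
  exact h (pt i φ)

lemma ff_natDegree_le (i : PlF k) (φ : k →+* i.Lv) : (ff q y i φ).natDegree ≤ 1 := by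
  have h : ∀ i : PlF k, (facP q y i).natDegree ≤ 1 := fun i => fac_natDegree_le (q i) y
  exact h (pt i φ)

lemma ff_class (i : PlF k) (φ : k →+* i.Lv) {g g' : F0} {c c' : ℕ} {a a' : k} (ha : a ≠ 0)
    (ha' : a' ≠ 0) {m : ℕ} (hm : 0 < m) (h : y - (c : F0) = algebraMap k F0 a * g ^ m)
    (h' : y - (c' : F0) = algebraMap k F0 a' * g' ^ m) (h1 : (ff q y i φ).eval (c : i.Lv) ≠ 0)
    (h2 : (ff q y i φ).eval (c' : i.Lv) ≠ 0) :
    ∃ γ : i.Lv, γ ≠ 0 ∧ (ff q y i φ).eval (c : i.Lv) * φ a' =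
      (ff q y i φ).eval (c' : i.Lv) * φ a * γ ^ m := by
  have hh : ∀ i : PlF k, (facP q y i).eval (c : i.Lv) ≠ 0 → (facP q y i).eval (c' : i.Lv) ≠ 0 →
      ∃ γ : i.Lv, γ ≠ 0 ∧ (facP q y i).eval (c : i.Lv) * i.φ a' =
        (facP q y i).eval (c' : i.Lv) * i.φ a * γ ^ m := fun i h1 h2 =>
    fac_class (q i) ha ha' hm h h' h1 h2
  exact hh (pt i φ) h1 h2

/-- the norm of `Z - y` at a point, without the poles -/
noncomputable def nrm (i : PlF k) (φ : k →+* i.Lv) : i.Lv[X] :=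
  ∏ j, ff q y i (φ.comp (C.aut j))

lemma nrm_monic (i : PlF k) (φ : k →+* i.Lv) : (nrm C q y i φ).Monic :=
  monic_prod_of_monic _ _ fun j _ => ff_monic q y i (φ.comp (C.aut j))

lemma nrm_natDegree (i : PlF k) (φ : k →+* i.Lv) : (nrm C q y i φ).natDegree =
    ∑ j, (ff q y i (φ.comp (C.aut j))).natDegree :=
  natDegree_prod_of_monic _ _ fun j _ => ff_monic q y i (φ.comp (C.aut j))

lemma nrm_natDegree_le (i : PlF k) (φ : k →+* i.Lv) :
    (nrm C q y i φ).natDegree ≤ C.f.natDegree := by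
  rw [nrm_natDegree]
  refine (Finset.sum_le_card_nsmul _ _ 1 fun j _ =>
    ff_natDegree_le q y i (φ.comp (C.aut j))).trans ?_
  simp

/-- all the values are finite if the degree is that of `f` -/
lemma finite_of_degree {i : PlF k} {φ : k →+* i.Lv}
    (h : (nrm C q y i φ).natDegree = C.f.natDegree) (j : Fin C.f.natDegree) :
    (ff q y i (φ.comp (C.aut j))).natDegree = 1 := by
  by_contra hne
  rw [nrm_natDegree] at h
  have h1 : ∑ j, (ff q y i (φ.comp (C.aut j))).natDegree <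
      ∑ _j : Fin C.f.natDegree, 1 :=
    Finset.sum_lt_sum (fun j _ => ff_natDegree_le q y i (φ.comp (C.aut j)))
      ⟨j, Finset.mem_univ j, lt_of_le_of_ne (ff_natDegree_le q y i _) hne⟩
  rw [h] at h1
  simp at h1

/-- the class of the norm -/
lemma nrm_class (hNMR : S_NMR) (i : PlF k) (φ : k →+* i.Lv) {M : ℕ} (hM : 0 < M) {c c' : ℕ}
    {A A' : K[X][X]} (hA : ClsC C M A (y - (c : F0))) (hA' : ClsC C M A' (y - (c' : F0)))
    (h1 : (nrm C q y i φ).eval (c : i.Lv) ≠ 0) (h2 : (nrm C q y i φ).eval (c' : i.Lv) ≠ 0) :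
    ∃ γ : i.Lv, γ ≠ 0 ∧ (nrm C q y i φ).eval (c : i.Lv) *
        eval₂ (φ.comp C.c) (φ C.T) (resultant C.f A') =
      (nrm C q y i φ).eval (c' : i.Lv) * eval₂ (φ.comp C.c) (φ C.T) (resultant C.f A) * γ ^ M := by
  obtain ⟨ha, g, hg⟩ := hA
  obtain ⟨ha', g', hg'⟩ := hA'
  unfold nrm at h1 h2 ⊢
  rw [eval_prod] at h1 h2 ⊢
  rw [eval_prod]
  have hf : ∀ j, ∃ γ : i.Lv, γ ≠ 0 ∧
      (ff q y i (φ.comp (C.aut j))).eval (c : i.Lv) * φ (C.aut j (ev2 C.c C.T C.α A')) =
      (ff q y i (φ.comp (C.aut j))).eval (c' : i.Lv) * φ (C.aut j (ev2 C.c C.T C.α A)) * γ ^ M :=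
    fun j => ff_class q y i (φ.comp (C.aut j)) ha ha' hM hg hg'
      (Finset.prod_ne_zero_iff.1 h1 j (Finset.mem_univ j))
      (Finset.prod_ne_zero_iff.1 h2 j (Finset.mem_univ j))
  choose γ hγ0 hγ using hf
  refine ⟨∏ j, γ j, Finset.prod_ne_zero_iff.2 fun j _ => hγ0 j, ?_⟩
  rw [← norm_eval C hNMR, ← norm_eval C hNMR, ← Finset.prod_mul_distrib,
    ← Finset.prod_mul_distrib, ← Finset.prod_pow, ← Finset.prod_mul_distrib]
  exact Finset.prod_congr rfl fun j _ => hγ j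

end crv

end Pool.Agent.Helper88.FX.E2
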