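import Pool.Agent.Helper39.FX.Defs
import Mathlib.FieldTheory.Galois.Infinite

/-!
# Package CRV, part 1: irreducibility over the algebraic closure of the constants (not a result)
-/

set_option autoImplicit false
set_option linter.unusedSectionVars false

open Polynomial

namespace Pool.Agent.Helper88.FX.Irr

open Pool.Agent.Helper39.FX

/-- Let `K` be algebraically closed in `L`. Elements of `L` which are independent over `K` are
independent over the algebraic closure of `K`. -/
theorem artin {K L Ω : Type} [Field K] [Field L] [Field Ω] [Algebra K L] [Algebra L Ω]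
    [Algebra K Ω] [IsScalarTower K L Ω] [IsGalois L Ω]
    (hcl : ∀ z : L, IsAlgebraic K z → ∃ c, algebraMap K L c = z) {ι : Type} [DecidableEq ι]
    (x : ι → L) (n : ℕ) :
    ∀ s : Finset ι, s.card = n →
    (∀ c : ι → K, ∑ i ∈ s, algebraMap K L (c i) * x i = 0 → ∀ i ∈ s, c i = 0) →
    ∀ b : ι → Ω, (∀ i, IsAlgebraic K (b i)) → ∑ i ∈ s, b i * algebraMap L Ω (x i) = 0 →
    ∀ i ∈ s, b i = 0 := by
  induction n with
  | zero =>
    intro s hs _ b _ _ i hi
    rw [Finset.card_eq_zero] at hs
    rw [hs] at hi
    exact absurd hi (Finset.notMem_empty i)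
  | succ n ih =>
    intro s hs hx b hb h i0 hi0
    by_contra hne
    -- normalise
    set b' : ι → Ω := fun i => b i * (b i0)⁻¹ with hb'
    have hb'alg : ∀ i, IsAlgebraic K (b' i) := fun i => (hb i).mul (hb i0).inv
    have hb'0 : b' i0 = 1 := mul_inv_cancel₀ hne
    have hsum : ∑ i ∈ s, b' i * algebraMap L Ω (x i) = 0 := by
      have e : ∑ i ∈ s, b' i * algebraMap L Ω (x i) =
          (b i0)⁻¹ * ∑ i ∈ s, b i * algebraMap L Ω (x i) := by
        rw [Finset.mul_sum]
        refine Finset.sum_congr rfl fun i _ => ?_
        rw [hb']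
        ring
      rw [e, h, mul_zero]
    have hfix : ∀ i ∈ s, ∀ τ : Ω ≃ₐ[L] Ω, τ (b' i) = b' i := by
      intro i hi τ
      by_cases hii : i = i0
      · rw [hii, hb'0, map_one]
      · have h1 : ∑ i ∈ s.erase i0, (τ (b' i) - b' i) * algebraMap L Ω (x i) = 0 := by
          have h2 : ∑ i ∈ s, (τ (b' i) - b' i) * algebraMap L Ω (x i) = 0 := by
            have h3 : ∑ i ∈ s, τ (b' i) * algebraMap L Ω (x i) = 0 := by
              have h4 := congrArg τ hsum
              rw [map_sum, map_zero] at h4
              rw [← h4]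
              refine Finset.sum_congr rfl fun i _ => ?_
              rw [map_mul τ (b' i) (algebraMap L Ω (x i)), τ.commutes]
            calc _ = ∑ i ∈ s, (τ (b' i) * algebraMap L Ω (x i) - b' i * algebraMap L Ω (x i)) :=
                  Finset.sum_congr rfl fun i _ => sub_mul _ _ _
              _ = 0 := by rw [Finset.sum_sub_distrib, h3, hsum, sub_zero]
          rw [← Finset.add_sum_erase s _ hi0] at h2
          rw [hb'0, map_one, sub_self, zero_mul, zero_add] at h2
          exact h2
        have h5 := ih (s.erase i0) (by rw [Finset.card_erase_of_mem hi0, hs]; rfl) (by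
          intro c hc j hj
          have h6 := hx (fun i => if i = i0 then 0 else c i) (by
            rw [← Finset.add_sum_erase s _ hi0, if_pos rfl, map_zero, zero_mul, zero_add, ← hc]
            refine Finset.sum_congr rfl fun i hi => ?_
            rw [if_neg (Finset.ne_of_mem_erase hi)]) j (Finset.mem_of_mem_erase hj)
          rwa [if_neg (Finset.ne_of_mem_erase hj)] at h6)
          (fun i => τ (b' i) - b' i) (fun i => by
            have h7 : IsAlgebraic K (τ (b' i)) := (hb'alg i).algHom (τ.restrictScalars K).toAlgHom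
            exact h7.sub (hb'alg i)) h1 i (Finset.mem_erase.2 ⟨hii, hi⟩)
        exact sub_eq_zero.1 h5
    have hK : ∀ i, ∃ c : K, i ∈ s → algebraMap K Ω c = b' i := by
      intro i
      by_cases hi : i ∈ s
      · obtain ⟨z, hz⟩ := (InfiniteGalois.mem_range_algebraMap_iff_fixed (b' i)).2
          (fun τ => hfix i hi τ)
        have hz2 : IsAlgebraic K z := by
          have h8 := hb'alg i
          rw [← hz] at h8
          exact (isAlgebraic_algebraMap_iff (algebraMap L Ω).injective).1 h8
        obtain ⟨c, hc⟩ := hcl z hz2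
        refine ⟨c, fun _ => ?_⟩
        rw [IsScalarTower.algebraMap_apply K L Ω, hc, hz]
      · exact ⟨0, fun h => absurd h hi⟩
    choose c hc using hK
    have h9 := hx c (by
      apply (algebraMap L Ω).injective
      rw [map_sum, map_zero, ← hsum]
      refine Finset.sum_congr rfl fun i hi => ?_
      rw [map_mul, ← hc i hi, IsScalarTower.algebraMap_apply K L Ω]) i0 hi0
    have h10 := hc i0 hi0
    rw [h9, map_zero, hb'0] at h10
    exact zero_ne_one h10

section ev

variable {R L : Type} [CommRing R] [CommRing L]

lemma ev2_sum (ι : R →+* L) (t s : L) (A : R[X][X]) {n N : ℕ} (hn : A.natDegree < n)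
    (hN : ∀ j, (A.coeff j).natDegree < N) :
    ev2 ι t s A = ∑ p ∈ Finset.range n ×ˢ Finset.range N,
      ι ((A.coeff p.1).coeff p.2) * (t ^ p.2 * s ^ p.1) := by
  rw [ev2, coe_eval₂RingHom, eval₂_eq_sum_range' _ hn, Finset.sum_product]
  refine Finset.sum_congr rfl fun j _ => ?_
  rw [coe_eval₂RingHom, eval₂_eq_sum_range' _ (hN j), Finset.sum_mul]
  refine Finset.sum_congr rfl fun i _ => ?_
  ring

lemma ev2_mp {R' : Type} [CommRing R'] (φ : R →+* R') (ι : R' →+* L) (t s : L) (A : R[X][X]) :
    ev2 ι t s (mp φ A) = ev2 (ι.comp φ) t s A := by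
  rw [ev2, ev2, coe_eval₂RingHom, coe_eval₂RingHom, mp, eval₂_map]
  congr 1
  ext a
  · simp
  · simp

end ev

/-- Let `K` be algebraically closed in `L`; the polynomial `f` of a generator is absolutely
irreducible. -/
theorem irr {K L : Type} [Field K] [CharZero K] [Field L] (c : K →+* L) (T α : L) (f : K[X][X])
    (hf : f.Monic) (hpos : 0 < f.natDegree) (hroot : ev2 c T α f = 0)
    (hmin : ∀ A : K[X][X], ev2 c T α A = 0 → f ∣ A)
    (hcl : ∀ (z : L) (P : K[X]), P ≠ 0 → P.eval₂ c z = 0 → ∃ a, c a = z) :
    Irreducible (mp (algebraMap K (AlgebraicClosure K)) f) := by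
  classical
  let _ : Algebra K L := c.toAlgebra
  have hcL : CharZero L := charZero_of_injective_algebraMap (algebraMap K L).injective
  let Ω := AlgebraicClosure L
  let σ : AlgebraicClosure K →ₐ[K] Ω := IsAlgClosed.lift
  have hσ : (σ : AlgebraicClosure K →+* Ω).comp (algebraMap K (AlgebraicClosure K)) =
      (algebraMap L Ω).comp c := by
    ext a
    change σ (algebraMap K (AlgebraicClosure K) a) = algebraMap L Ω (algebraMap K L a)
    rw [σ.commutes, IsScalarTower.algebraMap_apply K L Ω]
  set n := f.natDegree with hn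
  -- relations of small degree
  have key : ∀ A : K[X][X], ev2 c T α A = 0 → A.natDegree < n → A = 0 := by
    intro A hA hdeg
    by_contra h0
    obtain ⟨q, hq⟩ := hmin A hA
    have hq0 : q ≠ 0 := by
      rintro rfl
      rw [mul_zero] at hq
      exact h0 hq
    rw [hq, hf.natDegree_mul' hq0] at hdeg
    omega
  have hev : ∀ (A : K[X][X]), ev2 ((algebraMap L Ω).comp c) (algebraMap L Ω T) (algebraMap L Ω α) A
      = algebraMap L Ω (ev2 c T α A) := by
    intro A
    rw [ev2, ev2, coe_eval₂RingHom, coe_eval₂RingHom, hom_eval₂]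
    congr 1
    ext a
    · simp
    · simp
  have claim : ∀ g : (AlgebraicClosure K)[X][X], g.natDegree < n →
      ev2 (σ : AlgebraicClosure K →+* Ω) (algebraMap L Ω T) (algebraMap L Ω α) g = 0 → g = 0 := by
    intro g hg h0
    obtain ⟨N, hN⟩ : ∃ N, ∀ j, (g.coeff j).natDegree < N := by
      refine ⟨(g.support.sup fun j => (g.coeff j).natDegree) + 1, fun j => ?_⟩
      by_cases hj : j ∈ g.support
      · exact Nat.lt_succ_of_le (Finset.le_sup (f := fun j => (g.coeff j).natDegree) hj)
      · rw [notMem_support_iff.1 hj, natDegree_zero]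
        exact Nat.succ_pos _
    rw [ev2_sum _ _ _ g hg hN] at h0
    have h1 := artin (K := K) (L := L) (Ω := Ω) (fun z hz => by
        obtain ⟨P, hP, hPz⟩ := hz
        exact hcl z P hP hPz)
      (fun p : ℕ × ℕ => T ^ p.2 * α ^ p.1) _ (Finset.range n ×ˢ Finset.range N) rfl
      (by
        intro cc hcc p hp
        set A : K[X][X] := ∑ q ∈ Finset.range n ×ˢ Finset.range N,
          monomial q.1 (monomial q.2 (cc q)) with hA
        have hcoeff : ∀ q ∈ Finset.range n ×ˢ Finset.range N, (A.coeff q.1).coeff q.2 = cc q := by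
          rintro ⟨j, i⟩ hq
          rw [hA, finsetSum_coeff, finsetSum_coeff, Finset.sum_eq_single (j, i)]
          · rw [coeff_monomial, if_pos rfl, coeff_monomial, if_pos rfl]
          · rintro ⟨j', i'⟩ _ hne
            rw [coeff_monomial]
            by_cases hj : j' = j
            · rw [if_pos hj, coeff_monomial, if_neg]
              intro hi
              have hi' : i' = i := hi
              exact hne (by rw [hj, hi'])
            · rw [if_neg hj, coeff_zero]
          · exact fun h => absurd hq h
        have hdeg : A.natDegree < n := by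
          rw [hA]
          refine lt_of_le_of_lt (natDegree_sum_le_of_forall_le (n := n - 1) _ _ ?_) (by omega)
          intro q hq
          refine (natDegree_monomial_le _).trans ?_
          have := Finset.mem_range.1 (Finset.mem_product.1 hq).1
          omega
        have hA0 : A = 0 := by
          refine key A ?_ hdeg
          rw [hA, map_sum, ← hcc]
          refine Finset.sum_congr rfl fun q _ => ?_
          rw [ev2, coe_eval₂RingHom, eval₂_monomial, coe_eval₂RingHom, eval₂_monomial, mul_assoc]
          rfl
        rw [← hcoeff p hp, hA0, coeff_zero, coeff_zero])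
      (fun p => σ ((g.coeff p.1).coeff p.2))
      (fun p => (Algebra.IsAlgebraic.isAlgebraic (R := K) _).algHom σ)
      (by
        rw [← h0]
        refine Finset.sum_congr rfl fun p _ => ?_
        rw [map_mul, map_pow, map_pow]
        rfl)
    ext j i
    rw [coeff_zero, coeff_zero]
    by_cases hj : j < n
    · by_cases hi : i < N
      · have h2 := h1 (j, i) (Finset.mem_product.2 ⟨Finset.mem_range.2 hj, Finset.mem_range.2 hi⟩)
        exact (map_eq_zero_iff _ σ.injective).1 h2
      · exact coeff_eq_zero_of_natDegree_lt (lt_of_lt_of_le (hN j) (not_lt.1 hi))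
    · rw [coeff_eq_zero_of_natDegree_lt (lt_of_lt_of_le hg (not_lt.1 hj)), coeff_zero]
  have hF : (mp (algebraMap K (AlgebraicClosure K)) f).Monic := hf.map _
  have hFdeg : (mp (algebraMap K (AlgebraicClosure K)) f).natDegree = n := hf.natDegree_map _
  refine hF.irreducible_iff_natDegree.2 ⟨?_, ?_⟩
  · intro h1
    rw [h1, natDegree_one] at hFdeg
    omega
  · intro a b ha hb hab
    have h2 : ev2 (σ : AlgebraicClosure K →+* Ω) (algebraMap L Ω T) (algebraMap L Ω α) (a * b) =
        0 := by
      rw [hab, ev2_mp, hσ, hev, hroot, map_zero]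
    have h3 : a.natDegree + b.natDegree = n := by
      rw [← ha.natDegree_mul hb, hab, hFdeg]
    rw [map_mul] at h2
    by_contra hcon
    push Not at hcon
    rcases mul_eq_zero.1 h2 with h4 | h4
    · exact ha.ne_zero (claim a (by omega) h4)
    · exact hb.ne_zero (claim b (by omega) h4)

end Pool.Agent.Helper88.FX.Irr
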